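import Pool.Agent.U426.TU.Stm2
import Pool.Agent.TeamU.KummerInj

set_option autoImplicit false

/-! Project TU, package APP: the application of the Hasse norm theorem, sums of three squares. -/

namespace Pool.Agent.U296.TU.APP

open NumberField IsDedekindDomain Module Pool.Agent.TeamU Pool.Agent.U426.TU
open Pool.Agent.TeamU.KI

/-- a real embedding of a totally real field -/
lemma exists_real (F : Type) [Field F] [NumberField F] [NumberField.IsTotallyReal F] :
    Nonempty (F →+* ℝ) := by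
  obtain ⟨v⟩ : Nonempty (InfinitePlace F) := inferInstance
  exact ⟨InfinitePlace.embedding_of_isReal (NumberField.IsTotallyReal.isReal v)⟩

lemma not_sq {F : Type} [Field F] [NumberField F] [NumberField.IsTotallyReal F] {α : F}
    (h : ∀ φ : F →+* ℝ, 0 < φ α) (r : F) : r ^ 2 ≠ -α + 0 * r := by
  intro hr
  obtain ⟨φ⟩ := exists_real F
  have h1 := congrArg φ hr
  rw [map_pow, map_add, map_neg, map_mul, map_zero, zero_mul, add_zero] at h1
  have := h φ
  nlinarith [sq_nonneg (φ r)]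

/-- `F(√-α)` is totally complex -/
lemma complex {F : Type} [Field F] [NumberField F] {α : F} [hx : Fact (∀ r : F, r ^ 2 ≠ -α + 0 * r)]
    (h : ∀ φ : F →+* ℝ, 0 < φ α) (w : InfinitePlace (QE (-α))) : w.IsComplex := by
  rw [← InfinitePlace.not_isReal_iff_isComplex]
  intro hw
  set ψ : QE (-α) →+* ℝ := InfinitePlace.embedding_of_isReal hw
  have h1 := h (ψ.comp (algebraMap F (QE (-α))))
  have h2 : (ψ QuadraticAlgebra.omega) ^ 2 = ψ (algebraMap F (QE (-α)) (-α)) := by
    rw [← map_pow, omega_sq]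
  rw [map_neg, map_neg] at h2
  have h3 : (ψ.comp (algebraMap F (QE (-α)))) α = ψ (algebraMap F (QE (-α)) α) := rfl
  rw [h3] at h1
  nlinarith [sq_nonneg (ψ QuadraticAlgebra.omega)]

section loc
variable {M : Type} [Field M] [NumberField M] (v : HeightOneSpectrum (𝓞 M))

lemma val_int_le (n : ℤ) : v.valuation M (n : M) ≤ 1 := by
  have h : v.valuation M (algebraMap (𝓞 M) M (n : 𝓞 M)) ≤ 1 := v.valuation_le_one (K := M) (n : 𝓞 M)
  rwa [map_intCast] at h

lemma val_lt_one_iff (n : ℤ) : v.valuation M (n : M) < 1 ↔ ((n : 𝓞 M) ∈ v.asIdeal) := by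
  have h : v.valuation M (algebraMap (𝓞 M) M (n : 𝓞 M)) < 1 ↔ (n : 𝓞 M) ∈ v.asIdeal :=
    v.valuation_lt_one_iff_mem (K := M) (n : 𝓞 M)
  rwa [map_intCast (algebraMap (𝓞 M) M) n] at h

omit [NumberField M] in
lemma one_notin : (1 : 𝓞 M) ∉ v.asIdeal := fun h =>
  v.isPrime.ne_top ((Ideal.eq_top_iff_one _).mpr h)

/-- `-3` is a local square at the dyadic primes if `5` is a square -/
lemma lsq_dyadic (hv : (2 : 𝓞 M) ∈ v.asIdeal) (b : M) (hb : b ^ 2 = 5) : LSq v (-3 : M) := by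
  have h2 : v.valuation M (2 : M) < 1 := by
    have := (val_lt_one_iff v 2).mpr (by exact_mod_cast hv)
    exact_mod_cast this
  have h5 : v.valuation M (5 : M) = 1 := by
    refine le_antisymm (by exact_mod_cast val_int_le v 5) ?_
    by_contra hlt
    rw [not_le] at hlt
    have h5m : ((5 : ℤ) : 𝓞 M) ∈ v.asIdeal := (val_lt_one_iff v 5).mp (by exact_mod_cast hlt)
    apply one_notin v
    have e : (1 : 𝓞 M) = ((5 : ℤ) : 𝓞 M) - 2 * 2 := by push_cast; ring
    rw [e]
    exact Ideal.sub_mem _ h5m (Ideal.mul_mem_left _ _ hv)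
  have h20 : 0 < v.valuation M (2 : M) := by
    rw [zero_lt_iff]
    exact (Valuation.ne_zero_iff _).mpr two_ne_zero
  refine ⟨b, -3 / 5, ?_, ?_, ?_⟩
  · rw [hb]; field_simp
  · rintro rfl
    norm_num at hb
  · have e1 : (-3 / 5 - 1 : M) = -(2 ^ 3 / 5) := by norm_num
    have e2 : (4 : M) = 2 ^ 2 := by norm_num
    rw [e1, e2, Valuation.map_neg, map_div₀, map_pow, map_pow, h5, div_one]
    exact pow_lt_pow_right_of_lt_one₀ h20 h2 (by norm_num)

/-- `-1` is a local square at the primes over `3` if `2` is a square -/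
lemma lsq_three (a : M) (ha : a ^ 2 = 2) (h : ∀ y : M, v.valuation M (-3) ≠ v.valuation M y ^ 2) :
    LSq v (-1 : M) := by
  have h1 := h 1
  rw [map_one, one_pow, Valuation.map_neg] at h1
  have h3 : v.valuation M (3 : M) < 1 := lt_of_le_of_ne (by exact_mod_cast val_int_le v 3) h1
  have h3m : ((3 : ℤ) : 𝓞 M) ∈ v.asIdeal := (val_lt_one_iff v 3).mp (by exact_mod_cast h3)
  have h2 : v.valuation M (2 : M) = 1 := by
    refine le_antisymm (by exact_mod_cast val_int_le v 2) ?_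
    by_contra hlt
    rw [not_le] at hlt
    have h2m : ((2 : ℤ) : 𝓞 M) ∈ v.asIdeal := (val_lt_one_iff v 2).mp (by exact_mod_cast hlt)
    apply one_notin v
    have e : (1 : 𝓞 M) = ((3 : ℤ) : 𝓞 M) - ((2 : ℤ) : 𝓞 M) := by push_cast; ring
    rw [e]
    exact Ideal.sub_mem _ h3m h2m
  refine ⟨a, -1 / 2, ?_, ?_, ?_⟩
  · rw [ha]; field_simp
  · rintro rfl
    norm_num at ha
  · have e1 : (-1 / 2 - 1 : M) = -(3 / 2) := by norm_num
    have e2 : (4 : M) = 2 ^ 2 := by norm_num
    rw [e1, e2, Valuation.map_neg, map_div₀, map_pow, h2, div_one, one_pow]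
    exact h3

end loc

/-- the form `x² + y² + 3 z²` is isotropic over a totally complex field with `√2`, `√5` -/
lemma isotropic (hS : S_SPL) (hH : S_HN) (M : Type) [Field M] [NumberField M]
    (hM : ∀ w : InfinitePlace M, w.IsComplex) (a b : M) (ha : a ^ 2 = 2) (hb : b ^ 2 = 5) :
    ∃ u w : M, u ^ 2 + 3 * w ^ 2 = -1 := by
  by_cases hsq : ∃ s : M, s ^ 2 = -3
  · obtain ⟨s, hs⟩ := hsq
    have hs0 : s ≠ 0 := by
      rintro rfl
      norm_num at hs
    refine ⟨0, 1 / s, ?_⟩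
    field_simp
    linear_combination hs
  · have hfact : Fact (∀ r : M, r ^ 2 ≠ -3 + 0 * r) := ⟨fun r hr => hsq ⟨r, by rw [hr]; ring⟩⟩
    have hd : ∀ v : HeightOneSpectrum (𝓞 M), (2 : 𝓞 M) ∈ v.asIdeal → Splits (QE (-3 : M)) v :=
      fun v hv => hS M (QE (-3 : M)) (finrank_QE (-3 : M)) v (-3) (by norm_num)
        QuadraticAlgebra.omega (omega_sq _) (omega_notin _) (lsq_dyadic v hv b hb)
    obtain ⟨β, hβ⟩ := hH M (QE (-3 : M)) (finrank_QE (-3 : M)) hM QuadraticAlgebra.omega (-3)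
      (omega_sq _) (omega_notin _) hd (-1)
      (fun v => by rw [Units.val_neg, Units.val_one, Valuation.map_neg, map_one])
      (fun v hv => by
        rw [Units.val_neg, Units.val_one]
        exact lsq_three v a ha hv)
    rw [norm_QE, Units.val_neg, Units.val_one] at hβ
    exact ⟨β.re, β.im, by linear_combination hβ⟩

theorem t_APP : S_SPL → S_APP := by
  intro hS hH F _ _ _ a b ha hb α hα
  have hfact : Fact (∀ r : F, r ^ 2 ≠ -α + 0 * r) := ⟨not_sq hα⟩
  have e2 : (algebraMap F (QE (-α)) a) ^ 2 = 2 := by rw [← map_pow, ha, map_ofNat]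
  have e5 : (algebraMap F (QE (-α)) b) ^ 2 = 5 := by rw [← map_pow, hb, map_ofNat]
  obtain ⟨u, w, huw⟩ := isotropic hS hH (QE (-α)) (complex hα) _ _ e2 e5
  have hre := congrArg QuadraticAlgebra.re huw
  have him := congrArg QuadraticAlgebra.im huw
  have h3 : (3 : QE (-α)) = ⟨3, 0⟩ := by
    rw [← map_ofNat (algebraMap F (QE (-α))) 3, QuadraticAlgebra.algebraMap_eq]
  rw [h3] at hre him
  simp only [sq, QuadraticAlgebra.re_add, QuadraticAlgebra.im_add, QuadraticAlgebra.re_mul,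
    QuadraticAlgebra.im_mul, QuadraticAlgebra.re_neg, QuadraticAlgebra.im_neg,
    QuadraticAlgebra.re_one, QuadraticAlgebra.im_one, zero_mul, mul_zero, add_zero, neg_zero] at hre him
  set u0 := u.re
  set u1 := u.im
  set w0 := w.re
  set w1 := w.im
  have h1 : u0 ^ 2 + 1 + 3 * w0 ^ 2 = α * (u1 ^ 2 + 3 * w1 ^ 2) := by linear_combination hre
  have h2 : u0 * u1 + 3 * (w0 * w1) = 0 := by
    have : (2 : F) * (u0 * u1 + 3 * (w0 * w1)) = 0 := by linear_combination him
    simpa using this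
  set Q := u1 ^ 2 + 3 * w1 ^ 2 with hQ
  have hQ0 : Q ≠ 0 := by
    intro h0
    rw [h0, mul_zero] at h1
    obtain ⟨φ⟩ := exists_real F
    have h4 := congrArg φ h1
    simp only [map_add, map_pow, map_mul, map_one, map_zero, map_ofNat] at h4
    nlinarith [sq_nonneg (φ u0), sq_nonneg (φ w0)]
  have hkey : 9 * w1 ^ 2 + 9 * (w0 * u1 - u0 * w1) ^ 2 + 3 * u1 ^ 2 = 3 * α * Q ^ 2 := by
    have h1' : u0 ^ 2 + 1 + 3 * w0 ^ 2 = α * Q := h1
    have : 3 * α * Q ^ 2 = 3 * Q * (α * Q) := by ring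
    rw [this, ← h1', hQ]
    linear_combination (-(3 : F) * (u0 * u1 + 3 * (w0 * w1))) * h2
  set X := 3 * w1 / Q with hX
  set Y := 3 * (w0 * u1 - u0 * w1) / Q with hY
  set Z := u1 / Q with hZ
  have hsum : X ^ 2 + Y ^ 2 + 3 * Z ^ 2 = 3 * α := by
    rw [hX, hY, hZ]
    field_simp
    linear_combination (1 / 3 : F) * hkey
  exact ⟨(X - a * Y) / 3, (a * X + Y) / 3, Z,
    by linear_combination (-1 / 3 : F) * hsum - (X ^ 2 + Y ^ 2) / 9 * ha⟩

end Pool.Agent.U296.TU.APP
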